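import Mathlib

/-!
# The Simple equation energy is not always an upper bound for the Bose gas energy

For every density `ρ > 0` we give a nonnegative, radial, integrable potential `v` on `ℝ³` and a
solution `(u, e)` of the Simple equation at density `ρ` (with `u` a Gaussian, hence integrable and
smooth) whose energy `e` is negative.  As `v ≥ 0`, every many-body energy is nonnegative, so
`e < e₀(ρ)`.
-/

namespace Pool.Agent.Results.MP_76de3d_mp.NegativeEnergy

open MeasureTheory Filter Topology InnerProductSpace Real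
open scoped ENNReal ContDiff Laplacian

noncomputable section

/-- Three-dimensional Euclidean space. -/
abbrev E3 := EuclideanSpace ℝ (Fin 3)

/-- `(u, e)` is a (classical) solution of the Simple equation with potential `v` and
density `ρ`. -/
structure IsSimpleSolution (v : E3 → ℝ) (ρ : ℝ) (u : E3 → ℝ) (e : ℝ) : Prop where
  integrable : Integrable u
  smooth : ContDiff ℝ ∞ u
  equation : ∀ x, -(Δ u x) + 4 * e * u x
    = (1 - u x) * v x + 2 * e * ρ * ∫ y, u y * u (x - y)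
  energy : e = ρ / 2 * ∫ x, (1 - u x) * v x

/-- The fundamental cell of the configuration space of `N` particles on the torus of side `L`. -/
def box (N : ℕ) (L : ℝ) : Set (Fin N → E3) := {x | ∀ i k, x i k ∈ Set.Ico 0 L}

/-- Smooth, `L`-periodic in each particle, symmetric, normalized wave functions of `N` particles. -/
structure Admissible (N : ℕ) (L : ℝ) (ψ : (Fin N → E3) → ℂ) : Prop where
  smooth : ContDiff ℝ ∞ ψ
  periodic : ∀ (x : Fin N → E3) (i : Fin N) (k : Fin 3),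
    ψ (x + Pi.single i (EuclideanSpace.single k L)) = ψ x
  symmetric : ∀ (σ : Equiv.Perm (Fin N)) (x : Fin N → E3), ψ (fun i => x (σ i)) = ψ x
  normalized : ∫⁻ x in box N L, ENNReal.ofReal (‖ψ x‖ ^ 2) = 1

/-- The periodized pair potential `∑_{z ∈ ℤ³} v (x + L z)` on the torus of side `L`. -/
def periodized (v : E3 → ℝ) (L : ℝ) (x : E3) : ℝ≥0∞ :=
  ∑' z : Fin 3 → ℤ, ENNReal.ofReal (v (x + WithLp.toLp 2 (fun k => L * (z k : ℝ))))

/-- The quadratic form `⟨ψ, H_N ψ⟩` of `H_N = -1/2 ∑ Δ_i + ∑_{i<j} v(x_i - x_j)`. -/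
def energyForm (v : E3 → ℝ) (N : ℕ) (L : ℝ) (ψ : (Fin N → E3) → ℂ) : ℝ≥0∞ :=
  ∫⁻ x in box N L,
    (ENNReal.ofReal (1 / 2 * ∑ i : Fin N, ∑ k : Fin 3,
        ‖fderiv ℝ ψ x (Pi.single i (EuclideanSpace.single k 1))‖ ^ 2)
      + (∑ i : Fin N, ∑ j ∈ Finset.Ioi i, periodized v L (x i - x j))
          * ENNReal.ofReal (‖ψ x‖ ^ 2))

/-- The bosonic ground state energy of `N` particles on the torus of volume `V` (the infimum of
the quadratic form of `H_N` over normalized smooth periodic symmetric wave functions). -/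
def groundEnergy (v : E3 → ℝ) (N : ℕ) (V : ℝ) : ℝ≥0∞ :=
  ⨅ (ψ : (Fin N → E3) → ℂ) (_ : Admissible N (V ^ (1 / 3 : ℝ)) ψ),
    energyForm v N (V ^ (1 / 3 : ℝ)) ψ

/-- `e₀` is the thermodynamic limit of the ground state energy per particle at density `ρ`. -/
def IsEnergyPerParticle (v : E3 → ℝ) (ρ : ℝ) (e₀ : ℝ≥0∞) : Prop :=
  Tendsto (fun N : ℕ => groundEnergy v N (N / ρ) / N) atTop (𝓝 e₀)

/-! ### Gaussian computations -/

/-- The Gaussian `exp (4 - b ‖x‖²)`. -/
def gau (b : ℝ) (x : E3) : ℝ := Real.exp (4 - b * ‖x‖ ^ 2)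

lemma contDiff_gau (b : ℝ) : ContDiff ℝ ∞ (gau b) := by
  unfold gau
  exact Real.contDiff_exp.comp (contDiff_const.sub (contDiff_const.mul (contDiff_norm_sq ℝ)))

lemma hasFDerivAt_gau (b : ℝ) (x : E3) :
    HasFDerivAt (gau b) ((gau b x) • ((-(2 * b)) • innerSL ℝ x)) x := by
  have h1 : HasFDerivAt (fun x : E3 => ‖x‖ ^ 2) (2 • (innerSL ℝ x)) x := by
    have := (hasStrictFDerivAt_norm_sq x).hasFDerivAt
    simpa using this
  have h2 : HasFDerivAt (fun x : E3 => 4 - b * ‖x‖ ^ 2) (-(b • (2 • (innerSL ℝ x)))) x :=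
    (h1.const_mul b).const_sub 4
  have h3 := h2.exp
  refine h3.congr_fderiv ?_
  ext w
  simp [gau]
  ring

lemma fderiv_gau (b : ℝ) :
    fderiv ℝ (gau b) = fun x => (gau b x) • ((-(2 * b)) • innerSL ℝ x) :=
  funext fun x => (hasFDerivAt_gau b x).fderiv

lemma second_gau (b : ℝ) (x w : E3) :
    fderiv ℝ (fderiv ℝ (gau b)) x w w
      = gau b x * (4 * b ^ 2 * (inner ℝ x w) ^ 2 - 2 * b * ‖w‖ ^ 2) := by
  rw [fderiv_gau]
  have h1 : HasFDerivAt (fun x : E3 => (-(2 * b)) • innerSL ℝ x)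
      ((-(2 * b)) • (innerSL ℝ : E3 →L[ℝ] E3 →L[ℝ] ℝ)) x :=
    ((innerSL ℝ : E3 →L[ℝ] E3 →L[ℝ] ℝ).hasFDerivAt).const_smul (-(2 * b))
  have h2 : HasFDerivAt (fun x : E3 => gau b x • ((-(2 * b)) • innerSL ℝ x)) _ x :=
    (hasFDerivAt_gau b x).smul h1
  rw [h2.fderiv]
  have hw : (((innerSL ℝ : E3 →L[ℝ] E3 →L[ℝ] ℝ)) w) w = ‖w‖ ^ 2 := real_inner_self_eq_norm_sq w
  simp
  rw [hw]
  ring

lemma laplacian_gau (b : ℝ) (x : E3) :
    Δ (gau b) x = gau b x * (4 * b ^ 2 * ‖x‖ ^ 2 - 6 * b) := by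
  rw [laplacian_eq_iteratedFDeriv_orthonormalBasis (gau b) (EuclideanSpace.basisFun (Fin 3) ℝ)]
  simp only [iteratedFDeriv_two_apply, Matrix.cons_val_zero, Matrix.cons_val_one]
  simp only [second_gau]
  rw [← Finset.mul_sum, Finset.sum_sub_distrib, ← Finset.mul_sum]
  have h1 : ∑ i : Fin 3, (inner ℝ x (EuclideanSpace.basisFun (Fin 3) ℝ i)) ^ 2 = ‖x‖ ^ 2 := by
    rw [EuclideanSpace.norm_sq_eq]
    refine Finset.sum_congr rfl fun i _ => ?_
    rw [EuclideanSpace.basisFun_apply, EuclideanSpace.inner_single_right]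
    simp
  have h2 : ∀ i : Fin 3, ‖EuclideanSpace.basisFun (Fin 3) ℝ i‖ = 1 := fun i =>
    (EuclideanSpace.basisFun (Fin 3) ℝ).orthonormal.1 i
  rw [h1]
  simp only [h2, Finset.sum_const, Finset.card_univ, Fintype.card_fin, nsmul_eq_mul]
  push_cast
  ring

lemma integrable_gauss {b : ℝ} (hb : 0 < b) :
    Integrable (fun x : E3 => Real.exp (-b * ‖x‖ ^ 2)) := by
  have h := (GaussianFourier.integrable_cexp_neg_mul_sq_norm_add (V := E3) (b := (b : ℂ))
    (by simpa using hb) 0 0).norm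
  refine h.congr (Eventually.of_forall fun x => ?_)
  simp only [zero_mul, add_zero, Complex.norm_exp]
  congr 1
  have : (-(b : ℂ) * (‖x‖ : ℂ) ^ 2) = ((-b * ‖x‖ ^ 2 : ℝ) : ℂ) := by push_cast; ring
  rw [this, Complex.ofReal_re]

lemma integral_gauss {b : ℝ} (hb : 0 < b) :
    ∫ x : E3, Real.exp (-b * ‖x‖ ^ 2) = (π / b) ^ (3 / 2 : ℝ) := by
  rw [GaussianFourier.integral_rexp_neg_mul_sq_norm hb]
  simp

lemma integral_sq_gauss {b : ℝ} (hb : 0 < b) :
    ∫ x : E3, ‖x‖ ^ 2 * Real.exp (-b * ‖x‖ ^ 2)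
      = 3 / (2 * b) * ∫ x : E3, Real.exp (-b * ‖x‖ ^ 2) := by
  have h1 := integral_fun_norm_addHaar (volume : Measure E3)
    (fun r : ℝ => r ^ 2 * Real.exp (-b * r ^ 2))
  have h2 := integral_fun_norm_addHaar (volume : Measure E3)
    (fun r : ℝ => Real.exp (-b * r ^ 2))
  rw [h1, h2]
  have e1 : ∫ y in Set.Ioi (0 : ℝ), y ^ (Module.finrank ℝ E3 - 1) • (y ^ 2 * Real.exp (-b * y ^ 2))
      = b ^ (-(4 + 1) / 2 : ℝ) * (1 / 2) * Real.Gamma ((4 + 1) / 2) := by
    rw [← integral_rpow_mul_exp_neg_mul_rpow (p := 2) (q := 4) (by norm_num) (by norm_num) hb]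
    refine setIntegral_congr_fun measurableSet_Ioi fun y hy => ?_
    simp only [finrank_euclideanSpace, Fintype.card_fin, smul_eq_mul]
    norm_num
    ring
  have e2 : ∫ y in Set.Ioi (0 : ℝ), y ^ (Module.finrank ℝ E3 - 1) • (Real.exp (-b * y ^ 2))
      = b ^ (-(2 + 1) / 2 : ℝ) * (1 / 2) * Real.Gamma ((2 + 1) / 2) := by
    rw [← integral_rpow_mul_exp_neg_mul_rpow (p := 2) (q := 2) (by norm_num) (by norm_num) hb]
    refine setIntegral_congr_fun measurableSet_Ioi fun y hy => ?_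
    simp only [finrank_euclideanSpace, Fintype.card_fin, smul_eq_mul]
    norm_num
  rw [e1, e2]
  have g1 : Real.Gamma ((4 + 1) / 2) = 3 / 2 * Real.Gamma ((2 + 1) / 2) := by
    have := Real.Gamma_add_one (s := 3 / 2) (by norm_num)
    norm_num at this ⊢
    exact this
  have g2 : b ^ (-(4 + 1) / 2 : ℝ) = b ^ (-(2 + 1) / 2 : ℝ) / b := by
    rw [← Real.rpow_sub_one hb.ne']
    norm_num
  rw [g1, g2]
  simp only [smul_eq_mul, nsmul_eq_mul]
  field_simp

lemma gau_eq (b : ℝ) (x : E3) : gau b x = Real.exp 4 * Real.exp (-b * ‖x‖ ^ 2) := by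
  rw [gau, ← Real.exp_add]
  congr 1
  ring

lemma integrable_gau {b : ℝ} (hb : 0 < b) : Integrable (gau b) := by
  have := (integrable_gauss hb).const_mul (Real.exp 4)
  exact this.congr (Eventually.of_forall fun x => (gau_eq b x).symm)

lemma integral_gau {b : ℝ} (hb : 0 < b) :
    ∫ x, gau b x = Real.exp 4 * (π / b) ^ (3 / 2 : ℝ) := by
  simp_rw [gau_eq]
  rw [integral_const_mul, integral_gauss hb]

/-- Self-convolution of the Gaussian. -/
lemma conv_gau {b : ℝ} (hb : 0 < b) (x : E3) :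
    ∫ y, gau b y * gau b (x - y)
      = Real.exp 8 * Real.exp (-(b / 2) * ‖x‖ ^ 2) * (π / (2 * b)) ^ (3 / 2 : ℝ) := by
  have h1 : ∀ y : E3, gau b y * gau b (x - y)
      = Real.exp 8 * Real.exp (-(b / 2) * ‖x‖ ^ 2)
        * Real.exp (-(2 * b) * ‖y - (1 / 2 : ℝ) • x‖ ^ 2) := by
    intro y
    rw [gau, gau, ← Real.exp_add, ← Real.exp_add, ← Real.exp_add]
    congr 1
    rw [norm_sub_sq_real, norm_sub_sq_real, norm_smul, inner_smul_right, real_inner_comm]
    simp only [norm_div, norm_one, Real.norm_ofNat]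
    ring
  simp_rw [h1]
  rw [integral_const_mul, integral_sub_right_eq_self
    (fun y : E3 => Real.exp (-(2 * b) * ‖y‖ ^ 2)), integral_gauss (by positivity)]

/-! ### The constants -/

/-- The constant `K = e² / √2`. -/
def K : ℝ := Real.exp 2 / √2

/-- The constant `b₀ = (K - 4) / 10`. -/
def b0 : ℝ := (K - 4) / 10

lemma sqrt2_bounds : (1.414 : ℝ) < √2 ∧ √2 < 1.415 := by
  constructor
  · rw [Real.lt_sqrt (by norm_num)]
    norm_num
  · rw [Real.sqrt_lt' (by norm_num)]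
    norm_num

lemma exp2_bounds : (7.38 : ℝ) < Real.exp 2 ∧ Real.exp 2 < 7.40 := by
  have h1 := Real.exp_one_gt_d9
  have h2 := Real.exp_one_lt_d9
  have h3 : Real.exp 2 = Real.exp 1 * Real.exp 1 := by
    rw [← Real.exp_add]; norm_num
  rw [h3]
  constructor <;> nlinarith

lemma K_bounds : (5 : ℝ) < K ∧ K < 5.3 := by
  obtain ⟨h1, h2⟩ := sqrt2_bounds
  obtain ⟨h3, h4⟩ := exp2_bounds
  unfold K
  constructor
  · rw [lt_div_iff₀ (by linarith)]
    linarith
  · rw [div_lt_iff₀ (by linarith)]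
    linarith

lemma b0_pos : 0 < b0 := by
  have := K_bounds.1
  unfold b0
  linarith

lemma K_exp : K * Real.exp 2 = Real.exp 4 / √2 := by
  unfold K
  rw [div_mul_eq_mul_div, ← Real.exp_add]
  norm_num

lemma K_exp_neg : K * Real.exp (-2) = 1 / √2 := by
  unfold K
  rw [div_mul_eq_mul_div, ← Real.exp_add]
  norm_num

/-- The auxiliary function `N(s) = 8 b₀ s - K (eˢ - 1)`. -/
def NN (s : ℝ) : ℝ := 8 * b0 * s - K * (Real.exp s - 1)

lemma NN_nonneg {s : ℝ} (h1 : -2 ≤ s) (h2 : s ≤ 0) : 0 ≤ NN s := by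
  have hK := K_bounds
  have hc := convexOn_exp.2 (Set.mem_univ (-2 : ℝ)) (Set.mem_univ (0 : ℝ))
    (show 0 ≤ -s / 2 by linarith) (show 0 ≤ 1 + s / 2 by linarith) (by ring)
  simp only [smul_eq_mul, mul_zero, add_zero, Real.exp_zero, mul_one] at hc
  have hs : -s / 2 * -2 = s := by ring
  rw [hs] at hc
  have h3 : K * Real.exp s ≤ K * (-s / 2 * Real.exp (-2) + (1 + s / 2)) :=
    mul_le_mul_of_nonneg_left hc (by linarith)
  have h4 : K * (-s / 2 * Real.exp (-2) + (1 + s / 2))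
      = -s / 2 * (1 / √2) + K * (1 + s / 2) := by
    rw [← K_exp_neg]; ring
  have h5 : 1 / √2 < 0.71 := by
    rw [div_lt_iff₀ (by linarith [sqrt2_bounds.1])]
    linarith [sqrt2_bounds.1]
  unfold NN b0
  rw [h4] at h3
  have h6 : -s / 2 * (1 / √2) ≤ -s / 2 * 0.71 :=
    mul_le_mul_of_nonneg_left h5.le (by linarith)
  nlinarith

lemma NN_nonpos {s : ℝ} (h : 0 ≤ s) : NN s ≤ 0 := by
  have hK := K_bounds
  have h1 := Real.add_one_le_exp s
  unfold NN b0
  nlinarith

/-- The profile of the potential. -/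
def prof (s : ℝ) : ℝ := NN s / (1 - Real.exp (2 * s))

lemma prof_nonneg {s : ℝ} (hs : -2 ≤ s) : 0 ≤ prof s := by
  unfold prof
  rcases le_total s 0 with h | h
  · refine div_nonneg (NN_nonneg hs h) ?_
    have : Real.exp (2 * s) ≤ 1 := Real.exp_le_one_iff.2 (by linarith)
    linarith
  · refine div_nonneg_of_nonpos (NN_nonpos h) ?_
    have : 1 ≤ Real.exp (2 * s) := Real.one_le_exp (by linarith)
    linarith

lemma prof_le (s : ℝ) : prof s ≤ K * Real.exp (-s) := by
  have hK := K_bounds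
  have hb := b0_pos
  have e1 : Real.exp (-s) * Real.exp (2 * s) = Real.exp s := by
    rw [← Real.exp_add]; congr 1; ring
  rcases lt_trichotomy s 0 with h | h | h
  · have h1 : Real.exp (2 * s) < 1 := Real.exp_lt_one_iff.2 (by linarith)
    have h2 : 1 ≤ Real.exp (-s) := Real.one_le_exp (by linarith)
    unfold prof
    rw [div_le_iff₀ (by linarith)]
    have : K * Real.exp (-s) * (1 - Real.exp (2 * s)) = K * Real.exp (-s) - K * Real.exp s := by
      rw [← e1]; ring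
    rw [this]
    unfold NN
    nlinarith
  · subst h
    unfold prof
    simp
    linarith
  · have h1 : 1 < Real.exp (2 * s) := Real.one_lt_exp_iff.2 (by linarith)
    have h2 : Real.exp (-s) ≤ 1 := Real.exp_le_one_iff.2 (by linarith)
    unfold prof
    rw [div_le_iff_of_neg (by linarith)]
    have : K * Real.exp (-s) * (1 - Real.exp (2 * s)) = K * Real.exp (-s) - K * Real.exp s := by
      rw [← e1]; ring
    rw [this]
    unfold NN
    nlinarith

/-- The key algebraic identity `(1 - u) v = - t u N`. -/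
lemma prof_identity (s : ℝ) :
    (1 - Real.exp (-2 * s)) * prof s = -(Real.exp (-2 * s) * NN s) := by
  have e1 : Real.exp (-2 * s) * Real.exp (2 * s) = 1 := by
    rw [← Real.exp_add]; simp
  rcases eq_or_ne s 0 with h | h
  · subst h
    simp [prof, NN]
  · have h1 : 1 - Real.exp (2 * s) ≠ 0 := by
      intro h2
      have h3 : Real.exp (2 * s) = 1 := by linarith
      rw [Real.exp_eq_one_iff] at h3
      exact h (by linarith)
    unfold prof
    rw [mul_div_assoc', div_eq_iff h1]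
    have : (1 - Real.exp (-2 * s)) = -(Real.exp (-2 * s) * (1 - Real.exp (2 * s))) := by
      rw [mul_sub, e1]; ring
    rw [this]
    ring

/-! ### The potential -/

/-- The exponent `b ‖x‖² / 2 - 2`. -/
def yy (b : ℝ) (x : E3) : ℝ := b * ‖x‖ ^ 2 / 2 - 2

/-- The potential. -/
def pot (t b : ℝ) (x : E3) : ℝ := t * prof (yy b x)

lemma gau_eq_yy (b : ℝ) (x : E3) : gau b x = Real.exp (-2 * yy b x) := by
  rw [gau, yy]; congr 1; ring

lemma yy_ge {b : ℝ} (hb : 0 < b) (x : E3) : -2 ≤ yy b x := by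
  unfold yy
  have : 0 ≤ b * ‖x‖ ^ 2 / 2 := by positivity
  linarith

lemma pot_nonneg {t b : ℝ} (ht : 0 < t) (hb : 0 < b) (x : E3) : 0 ≤ pot t b x :=
  mul_nonneg ht.le (prof_nonneg (yy_ge hb x))

lemma measurable_pot (t b : ℝ) : Measurable (pot t b) := by
  unfold pot prof NN yy
  fun_prop

lemma integrable_pot {t b : ℝ} (ht : 0 < t) (hb : 0 < b) : Integrable (pot t b) := by
  have h1 := (integrable_gauss (b := b / 2) (by positivity)).const_mul (t * K * Real.exp 2)
  refine h1.mono' (measurable_pot t b).aestronglyMeasurable (Eventually.of_forall fun x => ?_)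
  rw [Real.norm_of_nonneg (pot_nonneg ht hb x)]
  have h2 := mul_le_mul_of_nonneg_left (prof_le (yy b x)) ht.le
  have h3 : Real.exp (-yy b x) = Real.exp 2 * Real.exp (-(b / 2) * ‖x‖ ^ 2) := by
    rw [← Real.exp_add, yy]; congr 1; ring
  unfold pot
  rw [h3] at h2
  calc t * prof (yy b x) ≤ t * (K * (Real.exp 2 * Real.exp (-(b / 2) * ‖x‖ ^ 2))) := h2
    _ = _ := by ring

/-- The function `(1 - u) v` in explicit form. -/
lemma one_sub_mul (t b : ℝ) (x : E3) :
    (1 - gau b x) * pot t b x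
      = -t * (Real.exp 4 * (4 * b0 * b * (‖x‖ ^ 2 * Real.exp (-b * ‖x‖ ^ 2))
        + (K - 16 * b0) * Real.exp (-b * ‖x‖ ^ 2))
        - Real.exp 4 / √2 * Real.exp (-(b / 2) * ‖x‖ ^ 2)) := by
  have h := prof_identity (yy b x)
  rw [← gau_eq_yy] at h
  have h1 : (1 - gau b x) * pot t b x = -t * (gau b x * NN (yy b x)) := by
    unfold pot
    linear_combination t * h
  rw [h1, ← K_exp]
  have h2 : Real.exp 2 * Real.exp (-(b / 2) * ‖x‖ ^ 2) = gau b x * Real.exp (yy b x) := by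
    rw [gau_eq_yy, ← Real.exp_add, ← Real.exp_add, yy]; congr 1; ring
  have h3 : K * Real.exp 2 * Real.exp (-(b / 2) * ‖x‖ ^ 2)
      = K * (gau b x * Real.exp (yy b x)) := by rw [mul_assoc, h2]
  rw [h3, gau_eq]
  unfold NN
  rw [yy]
  ring

lemma rpow_half {b : ℝ} (hb : 0 < b) :
    (π / (2 * b)) ^ (3 / 2 : ℝ) = (π / b) ^ (3 / 2 : ℝ) / (2 * √2) := by
  have h1 : π / (2 * b) = (π / b) / 2 := by field_simp
  rw [h1, Real.div_rpow (by positivity) (by norm_num)]
  congr 1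
  rw [show (3 / 2 : ℝ) = 1 + 1 / 2 by norm_num, Real.rpow_add (by norm_num), Real.rpow_one,
    Real.sqrt_eq_rpow]

lemma rpow_double {b : ℝ} (hb : 0 < b) :
    (π / (b / 2)) ^ (3 / 2 : ℝ) = (π / b) ^ (3 / 2 : ℝ) * (2 * √2) := by
  have h1 : π / (b / 2) = (π / b) * 2 := by field_simp
  rw [h1, Real.mul_rpow (by positivity) (by norm_num)]
  congr 1
  rw [show (3 / 2 : ℝ) = 1 + 1 / 2 by norm_num, Real.rpow_add (by norm_num), Real.rpow_one,
    Real.sqrt_eq_rpow]

lemma integrable_sq_gauss {b : ℝ} (hb : 0 < b) :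
    Integrable (fun x : E3 => ‖x‖ ^ 2 * Real.exp (-b * ‖x‖ ^ 2)) := by
  have h1 := (integrable_gauss (b := b / 2) (by positivity)).const_mul (2 / b)
  refine h1.mono' (by fun_prop) (Eventually.of_forall fun x => ?_)
  rw [Real.norm_of_nonneg (by positivity)]
  have h2 : b / 2 * ‖x‖ ^ 2 ≤ Real.exp (b / 2 * ‖x‖ ^ 2) := by
    linarith [Real.add_one_le_exp (b / 2 * ‖x‖ ^ 2)]
  have h3 : Real.exp (-b * ‖x‖ ^ 2) * Real.exp (b / 2 * ‖x‖ ^ 2)
      = Real.exp (-(b / 2) * ‖x‖ ^ 2) := by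
    rw [← Real.exp_add]; congr 1; ring
  rw [← h3]
  have h4 : 0 < Real.exp (-b * ‖x‖ ^ 2) := Real.exp_pos _
  calc ‖x‖ ^ 2 * Real.exp (-b * ‖x‖ ^ 2)
      = 2 / b * (Real.exp (-b * ‖x‖ ^ 2) * (b / 2 * ‖x‖ ^ 2)) := by field_simp
    _ ≤ 2 / b * (Real.exp (-b * ‖x‖ ^ 2) * Real.exp (b / 2 * ‖x‖ ^ 2)) := by gcongr

lemma integral_one_sub_mul {t b : ℝ} (hb : 0 < b) :
    ∫ x, (1 - gau b x) * pot t b x = -t * (2 * (Real.exp 4 * (π / b) ^ (3 / 2 : ℝ))) := by
  simp_rw [one_sub_mul]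
  have i1 := (integrable_sq_gauss hb).const_mul (4 * b0 * b)
  have i2 := (integrable_gauss hb).const_mul (K - 16 * b0)
  have i3 := (integrable_gauss (b := b / 2) (by positivity)).const_mul (Real.exp 4 / √2)
  have i4 : Integrable (fun x : E3 => Real.exp 4 * (4 * b0 * b
      * (‖x‖ ^ 2 * Real.exp (-b * ‖x‖ ^ 2)) + (K - 16 * b0) * Real.exp (-b * ‖x‖ ^ 2))) :=
    (i1.add i2).const_mul _
  rw [integral_const_mul, integral_sub i4 i3, integral_const_mul, integral_add i1 i2,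
    integral_const_mul, integral_const_mul, integral_const_mul, integral_sq_gauss hb,
    integral_gauss hb, integral_gauss (by positivity), rpow_double hb]
  have hs : √2 ≠ 0 := by positivity
  unfold b0
  field_simp
  ring

/-! ### The theorem -/

/-- **Simple equation energy below the Bose gas energy, at every density.** -/
theorem result (ρ : ℝ) (hρ : 0 < ρ) :
    ∃ (v : E3 → ℝ) (u : E3 → ℝ) (e : ℝ),
      (∀ x, 0 ≤ v x) ∧ Integrable v ∧ (∀ x y, ‖x‖ = ‖y‖ → v x = v y) ∧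
      IsSimpleSolution v ρ u e ∧ e < 0 ∧
      (∀ (N : ℕ) (V : ℝ), 0 < N → 0 < V →
        (e : EReal) < ((groundEnergy v N V / N : ℝ≥0∞) : EReal)) ∧
      ∀ e₀ : ℝ≥0∞, IsEnergyPerParticle v ρ e₀ → (e : EReal) < (e₀ : EReal) := by
  have hb0 := b0_pos
  have hpos : 0 < ρ * Real.exp 4 := by positivity
  set b : ℝ := π * (ρ * Real.exp 4) ^ (2 / 3 : ℝ) with hbdef
  have hb : 0 < b := by positivity
  have hA : ρ * (Real.exp 4 * (π / b) ^ (3 / 2 : ℝ)) = 1 := by
    have h1 : π / b = ((ρ * Real.exp 4) ^ (2 / 3 : ℝ))⁻¹ := by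
      rw [hbdef]; field_simp
    rw [h1, Real.inv_rpow (by positivity), ← Real.rpow_mul hpos.le]
    norm_num
    field_simp
  set t : ℝ := b / b0 with htdef
  have ht : 0 < t := by positivity
  have hbt : t * b0 = b := by rw [htdef]; field_simp
  have hneg : -t < 0 := by linarith
  have hE : ∀ a : ℝ≥0∞, (((-t : ℝ)) : EReal) < (a : EReal) := fun a =>
    lt_of_lt_of_le (EReal.coe_neg'.2 hneg) (EReal.coe_ennreal_nonneg a)
  refine ⟨pot t b, gau b, -t, pot_nonneg ht hb, integrable_pot ht hb, ?_, ?_, hneg,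
    fun N V _ _ => hE _, fun e₀ _ => hE _⟩
  · intro x y hxy
    simp only [pot, yy, hxy]
  · refine ⟨integrable_gau hb, contDiff_gau b, ?_, ?_⟩
    · intro x
      rw [laplacian_gau, one_sub_mul, conv_gau hb, rpow_half hb, gau_eq]
      have h8 : Real.exp 8 = Real.exp 4 * Real.exp 4 := by
        rw [← Real.exp_add]; norm_num
      have hs : √2 ≠ 0 := by positivity
      have h2 : 2 * -t * ρ * (Real.exp 8 * Real.exp (-(b / 2) * ‖x‖ ^ 2)
          * ((π / b) ^ (3 / 2 : ℝ) / (2 * √2)))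
          = -t * (Real.exp 4 / √2 * Real.exp (-(b / 2) * ‖x‖ ^ 2))
            * (ρ * (Real.exp 4 * (π / b) ^ (3 / 2 : ℝ))) := by
        rw [h8]; field_simp
      rw [h2, hA]
      have hK : K = 4 + 10 * b0 := by unfold b0; ring
      rw [hK]
      have hbt' : b = t * b0 := hbt.symm
      generalize Real.exp (-(b / 2) * ‖x‖ ^ 2) = E2
      generalize Real.exp (-b * ‖x‖ ^ 2) = E1
      rw [hbt']
      ring
    · rw [integral_one_sub_mul hb]
      have : ρ / 2 * (-t * (2 * (Real.exp 4 * (π / b) ^ (3 / 2 : ℝ))))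
          = -t * (ρ * (Real.exp 4 * (π / b) ^ (3 / 2 : ℝ))) := by ring
      rw [this, hA]
      ring

end

end Pool.Agent.Results.MP_76de3d_mp.NegativeEnergy
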